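import Pool.Agent.H87.HurB

set_option autoImplicit false

namespace Pool.Agent.Results.MP_cf3fbb_gt.NoSigmaCompact

open Set Filter Ordinal Pool.Agent.H87.Hur

/-- A (nontrivial) open cover of the space `Y`: a family of open subsets of `Y` whose union is `Y`
and of which `Y` itself is not a member. -/
def IsOpenCover {Y : Type*} [TopologicalSpace Y] (𝒰 : Set (Set Y)) : Prop :=
  (∀ U ∈ 𝒰, IsOpen U) ∧ ⋃₀ 𝒰 = Set.univ ∧ Set.univ ∉ 𝒰

/-- An open `γ`-cover of `Y`: an open cover which is infinite and such that each point lies in all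
but finitely many members. -/
def IsGammaCover {Y : Type*} [TopologicalSpace Y] (𝒱 : Set (Set Y)) : Prop :=
  IsOpenCover 𝒱 ∧ 𝒱.Infinite ∧ ∀ y : Y, {V | V ∈ 𝒱 ∧ y ∉ V}.Finite

/-- The Hurewicz property `U_fin(O, Γ)` of the space `Y`: for every sequence `𝒰 n` of open covers
of `Y`, none of which has a finite subcover, there are finite `𝓕 n ⊆ 𝒰 n` such that
`{⋃ 𝓕 n : n ∈ ℕ}` is an open `γ`-cover. -/
def Hurewicz (Y : Type*) [TopologicalSpace Y] : Prop :=
  ∀ 𝒰 : ℕ → Set (Set Y), (∀ n, IsOpenCover (𝒰 n)) →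
    (∀ n, ∀ 𝓕 : Set (Set Y), 𝓕 ⊆ 𝒰 n → 𝓕.Finite → ⋃₀ 𝓕 ≠ Set.univ) →
    ∃ 𝓕 : ℕ → Set (Set Y), (∀ n, 𝓕 n ⊆ 𝒰 n ∧ (𝓕 n).Finite) ∧
      IsGammaCover (Set.range fun n => ⋃₀ 𝓕 n)

/-- `B ⊆ ℝ` is `F_σδ`: a countable intersection of countable unions of closed sets. -/
def IsFSigmaDelta (B : Set ℝ) : Prop :=
  ∃ C : ℕ → ℕ → Set ℝ, (∀ n m, IsClosed (C n m)) ∧ B = ⋂ n, ⋃ m, C n m

lemma fin'_iff (x : K) : Fin' x ↔ ∃ s : Finset ℕ, x = chi s := by
  constructor
  · intro h
    refine ⟨h.toFinset, ?_⟩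
    funext n
    by_cases hn : x n = true
    · simp [chi, hn]
    · simp [chi, hn]
  · rintro ⟨s, rfl⟩
    have : {n | chi s n = true} = (s : Set ℕ) := by ext n; simp [chi]
    rw [Fin', this]
    exact s.finite_toSet

/-- coding of `E` into the Cantor space. -/
def code (p : E) : K := fun n =>
  if (Nat.unpair n).1 = 0 then p.1 (Nat.unpair n).2 else p.2 ((Nat.unpair n).1 - 1) (Nat.unpair n).2

lemma code_continuous : Continuous code := by
  refine continuous_pi fun n => ?_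
  by_cases h : (Nat.unpair n).1 = 0
  · have : (fun p : E => code p n) = fun p : E => p.1 (Nat.unpair n).2 := by
      funext p; simp [code, h]
    rw [this]
    exact (continuous_apply _).comp continuous_fst
  · have : (fun p : E => code p n)
        = fun p : E => p.2 ((Nat.unpair n).1 - 1) (Nat.unpair n).2 := by
      funext p; simp [code, h]
    rw [this]
    exact (continuous_apply _).comp ((continuous_apply _).comp continuous_snd)

lemma code_injective : Function.Injective code := by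
  intro p q h
  apply Prod.ext
  · funext n
    have := congrFun h (Nat.pair 0 n)
    simpa [code] using this
  · funext m n
    have := congrFun h (Nat.pair (m + 1) n)
    simpa [code] using this

lemma exists_embedding : ∃ φ : E → ℝ, Continuous φ ∧ Function.Injective φ := by
  obtain ⟨f, -, hf1, hf2⟩ := (isClosed_univ (X := ℝ)).exists_nat_bool_injection_of_not_countable (by
    rw [Set.countable_univ_iff]
    exact not_countable)
  exact ⟨f ∘ code, hf1.comp code_continuous, hf2.comp code_injective⟩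

/-- There is an `F_σδ` (hence Borel) set `B ⊆ ℝ` and a set `X ⊆ B` with the Hurewicz property such
that no `σ`-compact set `F` satisfies `X ⊆ F ⊆ B`. -/
theorem result :
    ∃ B : Set ℝ, IsFSigmaDelta B ∧ MeasurableSet B ∧
      ∃ X : Set ℝ, X ⊆ B ∧ Hurewicz X ∧
        ¬ ∃ F : Set ℝ, IsSigmaCompact F ∧ X ⊆ F ∧ F ⊆ B := by
  classical
  obtain ⟨φ, hφc, hφi⟩ := exists_embedding
  obtain ⟨x, d, hx, hd, hstar⟩ := exists_XE
  have hFsd : IsFSigmaDelta (φ '' BE) := by
    obtain ⟨e, he⟩ := exists_surjective_nat (Finset ℕ)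
    let C : ℕ → ℕ → Set E := fun n m => {p | p.1 = chi (e m)} ∪ {p | p.2 n = chi (e m)}
    have hC : ∀ n m, IsClosed (C n m) := by
      intro n m
      refine IsClosed.union ?_ ?_
      · exact isClosed_singleton.preimage continuous_fst
      · exact isClosed_singleton.preimage ((continuous_apply n).comp continuous_snd)
    refine ⟨fun n m => φ '' C n m, fun n m => ((hC n m).isCompact.image hφc).isClosed, ?_⟩
    ext y
    simp only [mem_iInter, mem_iUnion, mem_image]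
    constructor
    · rintro ⟨p, hp, rfl⟩ n
      rcases hp with hp | hp
      · obtain ⟨s, hs⟩ := (fin'_iff _).1 hp
        obtain ⟨m, rfl⟩ := he s
        exact ⟨m, p, Or.inl hs, rfl⟩
      · obtain ⟨s, hs⟩ := (fin'_iff _).1 (hp n)
        obtain ⟨m, rfl⟩ := he s
        exact ⟨m, p, Or.inr hs, rfl⟩
    · intro h
      obtain ⟨m, p, hp, rfl⟩ := h 0
      refine ⟨p, ?_, rfl⟩
      by_cases h1 : Fin' p.1
      · exact Or.inl h1
      · refine Or.inr fun n => ?_
        obtain ⟨m, q, hq, hqp⟩ := h n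
        have := hφi hqp
        subst this
        rcases hq with hq | hq
        · exact absurd ((fin'_iff _).2 ⟨_, hq⟩) h1
        · exact (fin'_iff _).2 ⟨_, hq⟩
  refine ⟨φ '' BE, hFsd, ?_, φ '' XE x d, image_mono (XE_subset_BE x d), ?_, ?_⟩
  · obtain ⟨C, hC, hB⟩ := hFsd
    rw [hB]
    exact MeasurableSet.iInter fun n => MeasurableSet.iUnion fun m => (hC n m).measurableSet
  · intro 𝒰 hcov hnofin
    let 𝒰' : ℕ → Set (Set E) := fun n => {O | IsOpen O ∧ ∃ U ∈ 𝒰 n,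
      ∀ (p : E) (hp : p ∈ XE x d), p ∈ O ↔ (⟨φ p, mem_image_of_mem φ hp⟩ : φ '' XE x d) ∈ U}
    have h1 : ∀ n, XE x d ⊆ ⋃₀ 𝒰' n := by
      intro n p hp
      have h2 : (⟨φ p, mem_image_of_mem φ hp⟩ : φ '' XE x d) ∈ ⋃₀ 𝒰 n := by
        rw [(hcov n).2.1]; exact mem_univ _
      obtain ⟨U, hU, hpU⟩ := h2
      obtain ⟨V, hV, rfl⟩ := isOpen_induced_iff.1 ((hcov n).1 U hU)
      refine ⟨φ ⁻¹' V, ⟨hV.preimage hφc, _, hU, fun q hq => Iff.rfl⟩, hpU⟩
    obtain ⟨𝓕', h2, h3⟩ := hstar 𝒰' (fun n O hO => hO.1) h1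
    have h4 : ∀ (n : ℕ) (O : Set E), ∃ U : Set (φ '' XE x d), O ∈ 𝒰' n → U ∈ 𝒰 n ∧
        ∀ (p : E) (hp : p ∈ XE x d), p ∈ O ↔ (⟨φ p, mem_image_of_mem φ hp⟩ : φ '' XE x d) ∈ U := by
      intro n O
      by_cases hO : O ∈ 𝒰' n
      · obtain ⟨-, U, hU, hUO⟩ := hO
        exact ⟨U, fun _ => ⟨hU, hUO⟩⟩
      · exact ⟨∅, fun h => absurd h hO⟩
    choose c hc using h4
    have hsub : ∀ n, c n '' 𝓕' n ⊆ 𝒰 n := by
      rintro n _ ⟨O, hO, rfl⟩
      exact (hc n O ((h2 n).1 hO)).1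
    have hfin : ∀ n, (c n '' 𝓕' n).Finite := fun n => (h2 n).2.image _
    have hev : ∀ y : φ '' XE x d, ∀ᶠ n in atTop, y ∈ ⋃₀ (c n '' 𝓕' n) := by
      rintro ⟨_, p, hp, rfl⟩
      filter_upwards [h3 p hp] with n hn
      obtain ⟨O, hO, hpO⟩ := hn
      exact ⟨c n O, ⟨O, hO, rfl⟩, ((hc n O ((h2 n).1 hO)).2 p hp).1 hpO⟩
    have hne : ∀ n, ⋃₀ (c n '' 𝓕' n) ≠ Set.univ := fun n => hnofin n _ (hsub n) (hfin n)
    refine ⟨fun n => c n '' 𝓕' n, fun n => ⟨hsub n, hfin n⟩, ⟨?_, ?_, ?_⟩, ?_, ?_⟩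
    · rintro _ ⟨n, rfl⟩
      exact isOpen_sUnion fun U hU => (hcov n).1 U (hsub n hU)
    · rw [sUnion_eq_univ_iff]
      intro y
      obtain ⟨n, hn⟩ := (hev y).exists
      exact ⟨_, ⟨n, rfl⟩, hn⟩
    · rintro ⟨n, hn⟩
      exact hne n hn
    · intro hfinite
      obtain ⟨V, hV, hVinf⟩ : ∃ V ∈ Set.range (fun n => ⋃₀ (c n '' 𝓕' n)),
          {n | ⋃₀ (c n '' 𝓕' n) = V}.Infinite := by
        by_contra hcon
        push Not at hcon
        have : (Set.univ : Set ℕ) ⊆ ⋃ V ∈ Set.range (fun n => ⋃₀ (c n '' 𝓕' n)),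
            {n | ⋃₀ (c n '' 𝓕' n) = V} := by
          intro n _
          simp only [mem_iUnion]
          exact ⟨_, ⟨n, rfl⟩, rfl⟩
        exact Set.infinite_univ ((hfinite.biUnion fun V hV => by
          have := hcon V hV
          simpa using this).subset this)
      obtain ⟨n₀, hn₀⟩ := hV
      apply hne n₀
      rw [eq_univ_iff_forall]
      intro y
      obtain ⟨N, hN⟩ := eventually_atTop.1 (hev y)
      obtain ⟨m, hm, hNm⟩ := hVinf.exists_gt N
      have h5 := hN m hNm.le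
      simp only [mem_ofPred_eq] at hm
      simp only at hn₀
      rw [hn₀, ← hm]
      exact h5
    · intro y
      obtain ⟨N, hN⟩ := eventually_atTop.1 (hev y)
      refine ((Set.finite_Iio N).image (fun n => ⋃₀ (c n '' 𝓕' n))).subset ?_
      rintro V ⟨⟨n, rfl⟩, hy⟩
      refine ⟨n, ?_, rfl⟩
      by_contra hni
      exact hy (hN n (not_lt.1 hni))
  · rintro ⟨F, ⟨S, hS1, hS2⟩, hXF, hFB⟩
    refine no_sep x hx d hd (fun k => φ ⁻¹' (S k)) (fun k => ?_) (fun k => ?_) ?_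
    · exact ((hS1 k).isClosed.preimage hφc).isCompact
    · intro p hp
      have h1 : φ p ∈ F := by
        rw [← hS2]; exact mem_iUnion.2 ⟨k, hp⟩
      obtain ⟨q, hq, hqp⟩ := hFB h1
      rw [← hφi hqp]; exact hq
    · intro α hα z hz
      have h1 : (x α, z) ∈ XE x d := by
        right
        simp only [mem_iUnion]
        exact ⟨α, hα, rfl, hz⟩
      have h2 : φ (x α, z) ∈ F := hXF (mem_image_of_mem φ h1)
      rw [← hS2] at h2
      obtain ⟨k, hk⟩ := mem_iUnion.1 h2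
      exact ⟨k, hk⟩

end Pool.Agent.Results.MP_cf3fbb_gt.NoSigmaCompact
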